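import Pool.Agent.Results.MP_fe58d8_pr.NaturalCurve
import Pool.Agent.Results.MP_fe58d8_pr.ExactModulus
import Pool.Agent.Q294.PVar2
import Pool.Agent.Q294.AreaPl
import Pool.Agent.Q294.AreaWeak

/-!
# Variation index and signed area of the scaling limits of the exploration path

Critical bond percolation on `δ ℤ²` in a rectangle `D = (-A, B) × (0, H)`, with the counterclockwise
boundary arc from `a = t + i H` to `b = 0` wired and the other one dual-wired; `Rect.curve` is the
exploration path as a curve on `[0, 1]` run at constant speed, `Rect.time` its natural time and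
`Rect.law` the law of (curve, time).

* The `q`-variation of a curve does not depend on its parametrisation. For every `q > 7/4` the
  `q`-variations of the exploration paths are tight, and every weak limit has almost surely finite
  `q`-variation for all `q > 7/4`, even finite variation for the gauge
  `x^(7/4) / (log (e + 1/x))^(3/4)`, locally at most a constant times the natural time, and infinite
  `q`-variation on every subarc for all `q < 7/4`: the variation index of every subarc is `7/4`.
* As `7/4 < 2`, the signed area `(1/2) ∫ (x dy - y dx)` makes sense for the limit curves (as the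
  limit of the areas of the inscribed dyadic polygons, a Young integral), although it is not a
  continuous functional of the curve in the uniform norm, and for every sequence of meshes along
  which the exploration path converges in law, the path, its natural time and its signed area
  converge jointly in law to the limit, its natural time and its signed area.

Definitions: `Pool.Agent.H984R4.NP.Model`, `Pool.Agent.H984R4.NP.Defs`,
`Pool.Agent.H984R3.Per.Defs` (exploration path), `Q294.PVar.varSum`, `Q294.PVar.gauge`,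
`Q294.Area.cross`, `Q294.Area.at'`, `Q294.Area.areaN`, `Q294.Area.area`.
-/

set_option autoImplicit false

namespace Pool.Agent.Results.MP_fe58d8_pr.VariationAndArea

open H984N MeasureTheory Filter Topology Q294.PVar Q294.Area

/-- Hölder tightness in terms of the laws. -/
theorem hol_tight (R : Rect) (ε : ℝ) (hε : 0 < ε) : ∃ Λ δ0 : ℝ, 0 ≤ Λ ∧ 0 < δ0 ∧
    ∀ δ : ℝ, 0 < δ → δ ≤ δ0 → (R.law δ : Measure X) {p | Hol Λ p.1}ᶜ ≤ ENNReal.ofReal ε := by
  obtain ⟨Λ, δ0, hΛ, hδ0, h⟩ := (NaturalCurve.result R).2.1 (11/20) ε (by norm_num) (by norm_num) hε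
  refine ⟨Λ, δ0, hΛ.le, hδ0, fun δ hδ hδ' => ?_⟩
  have h1 := h δ hδ hδ'
  have hm : MeasurableSet {p : X | Hol Λ p.1} := (hol_closed Λ).measurableSet
  have h2 : ENNReal.ofReal (1 - ε) ≤ (R.law δ : Measure X) {p | Hol Λ p.1} := by
    rw [R.law_apply δ hm]
    apply ENNReal.ofReal_le_ofReal
    refine h1.trans (Exist_prob_mono R δ fun F _ hF => ?_)
    exact hF.2
  rw [prob_compl_eq_one_sub hm]
  calc (1 : ENNReal) - (R.law δ : Measure X) {p | Hol Λ p.1}
      ≤ 1 - ENNReal.ofReal (1 - ε) := tsub_le_tsub_left h2 1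
    _ ≤ ENNReal.ofReal ε := by
        rw [tsub_le_iff_right, ← ENNReal.ofReal_one]
        calc ENNReal.ofReal 1 = ENNReal.ofReal (ε + (1 - ε)) := by congr 1; ring
          _ ≤ _ := ENNReal.ofReal_add_le

/-- **Theorem.** For the exploration path of critical bond percolation on `δ ℤ²` in a rectangle:
(1) for every `q > 7/4` the `q`-variations of the paths are tight as `δ → 0`;
(2) the signed area of the exploration path (as a curve) is the usual one of a polygonal path;
(3) weak limits exist along a subsequence of every sequence of meshes;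
(4) for every weak limit, almost surely: the variation of the curve with the gauge
`x^(7/4) / (log (e + 1/x))^(3/4)` is finite, and along partitions of small mesh at most `C` times
the natural time; the `q`-variation is finite for every `q > 7/4`, and it is infinite on every
subarc for every `q < 7/4`; the curve has a signed area;
(5) the joint law of path, natural time and signed area converges to the one of the weak limit. -/
theorem result (R : Rect) :
    (∀ q ε : ℝ, 7/4 < q → 0 < ε → ∃ M δ0 : ℝ, 0 < δ0 ∧ ∀ δ : ℝ, 0 < δ → δ ≤ δ0 →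
      1 - ε ≤ R.prob δ (fun F => ∀ (n : ℕ) (u : ℕ → unitInterval), Monotone u →
        varSum (R.curve δ F) (fun x => x ^ q) n u ≤ M)) ∧
    (∀ (δ : ℝ) (F : Finset H974.Edg), area (R.curve δ F) = (1 / 2) *
      ∑ k ∈ Finset.range ((R.dm δ).len F), cross (pos δ ((R.dm δ).walk F k))
        (pos δ ((R.dm δ).walk F (k + 1)))) ∧
    (∀ δ : ℕ → ℝ, (∀ i, 0 < δ i) → Tendsto δ atTop (𝓝 0) →
      ∃ φ : ℕ → ℕ, StrictMono φ ∧ ∃ μ : ProbabilityMeasure X,
        Tendsto (fun i => R.law (δ (φ i))) atTop (𝓝 μ)) ∧
    ∃ C : ℝ, ∀ δ : ℕ → ℝ, (∀ i, 0 < δ i) → Tendsto δ atTop (𝓝 0) → ∀ μ : ProbabilityMeasure X,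
      Tendsto (fun i => R.law (δ i)) atTop (𝓝 μ) →
      (∀ᵐ p ∂(μ : Measure X),
        (∃ η : ℝ, 0 < η ∧ ∀ (n : ℕ) (u : ℕ → unitInterval), Monotone u →
          (∀ i, (u (i + 1) : ℝ) - u i < η) →
          varSum p.1 gauge n u ≤ C * (((u n : ℝ) - u 0) * p.2)) ∧
        (∃ M : ℝ, ∀ (n : ℕ) (u : ℕ → unitInterval), Monotone u → varSum p.1 gauge n u ≤ M) ∧
        (∀ q : ℝ, 7/4 < q → ∃ M : ℝ, ∀ (n : ℕ) (u : ℕ → unitInterval), Monotone u →
          varSum p.1 (fun x => x ^ q) n u ≤ M) ∧
        (∀ q : ℝ, 0 < q → q < 7/4 → ∀ s t : unitInterval, s < t → ∀ M : ℝ,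
          ∃ (n : ℕ) (u : ℕ → unitInterval), Monotone u ∧ (∀ i, u i ∈ Set.Icc s t) ∧
            M ≤ varSum p.1 (fun x => x ^ q) n u) ∧
        Tendsto (areaN p.1) atTop (𝓝 (area p.1))) ∧
      ∀ g : X × ℝ → ℝ, (∀ x, |g x| ≤ 1) → LipschitzWith 1 g →
        Tendsto (fun i => ∫ p, g (p, area p.1) ∂(R.law (δ i) : Measure X)) atTop
          (𝓝 (∫ p, g (p, area p.1) ∂(μ : Measure X))) := by
  obtain ⟨-, k1, k2, k3⟩ := NaturalCurve.result R
  obtain ⟨-, c, C, hc, hC, hmod⟩ := ExactModulus.result R
  refine ⟨?_, ?_, k2, C ^ (7/4 : ℝ) * 2 ^ (3/4 : ℝ), ?_⟩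
  · intro q ε hq hε
    have hq0 : 0 < q := by linarith
    obtain ⟨Λ, δ0, hΛ, hδ0, h⟩ := k1 (1 / q) ε (by positivity) (by
      rw [div_lt_iff₀ hq0]; linarith) hε
    refine ⟨Λ ^ q, δ0, hδ0, fun δ hδ hδ' => (h δ hδ hδ').trans ?_⟩
    exact Exist_prob_mono R δ fun F _ hF n u hu => holder_var hq0 hΛ.le hF.2 n u hu
  · intro δ F
    exact area_pl _ _
  · intro δ hδ hlim μ hμ
    refine ⟨?_, ?_⟩
    · filter_upwards [k3 δ hδ hlim μ hμ, hmod δ hδ hlim μ hμ] with p hp hp2
      obtain ⟨hT, -, -, -, hdim, hhol, -⟩ := hp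
      obtain ⟨h0, h0pos, hm⟩ := hp2.2 0 1 (by norm_num)
      obtain ⟨⟨η, hη, hloc⟩, K, hK⟩ := gauge_of_mod hC.le p.1 hT h0pos
        (fun h hh hlt s t hst => (hm h hh hlt).2 s t hst)
      refine ⟨⟨η, hη, fun n u hu hmesh => ?_⟩, ⟨|K|, fun n u hu => ?_⟩, ?_, ?_, ?_⟩
      · have h1 : varSum p.1 gauge n u ≤ ∑ i ∈ Finset.range n,
            (C ^ (7/4 : ℝ) * 2 ^ (3/4 : ℝ)) * p.2 * |((u i : unitInterval) : ℝ) - u (i + 1)| := by
          unfold varSum
          apply Finset.sum_le_sum
          intro i _
          apply hloc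
          have : ((u i : unitInterval) : ℝ) ≤ u (i + 1) := hu (Nat.le_succ i)
          rw [abs_sub_comm, abs_of_nonneg (by linarith)]
          exact hmesh i
        rw [← Finset.mul_sum, tele n u hu] at h1
        linarith
      · have h1 := varSum_le_of hK n u hu
        have h2 := (u n).2.2
        have h3 := (u 0).2.1
        have h4 : ((u 0 : unitInterval) : ℝ) ≤ u n := hu (Nat.zero_le n)
        have h5 := le_abs_self K
        have h6 := abs_nonneg K
        nlinarith
      · intro q hq
        have hq0 : 0 < q := by linarith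
        obtain ⟨Λ, hΛ⟩ := hhol (1 / q) (by positivity) (by
          rw [div_lt_iff₀ hq0]; linarith)
        refine ⟨|Λ| ^ q, fun n u hu => holder_var hq0 (abs_nonneg Λ) (fun s t => ?_) n u hu⟩
        refine (hΛ s t).trans ?_
        gcongr
        exact le_abs_self Λ
      · intro q hq0 hq s t hst M
        apply inf_var p.1 hst hq0
        rw [hdim s t hst]
        rw [show (7 / 4 : ENNReal) = ENNReal.ofReal (7/4) by
          rw [ENNReal.ofReal_div_of_pos (by norm_num)]; simp]
        exact (ENNReal.ofReal_lt_ofReal_iff (by norm_num)).2 hq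
      · obtain ⟨Λ, hΛ⟩ := hhol (11/20) (by norm_num) (by norm_num)
        have hH : Hol |Λ| p.1 := fun s t => (hΛ s t).trans (by
          gcongr
          exact le_abs_self Λ)
        exact (converge (abs_nonneg Λ) hH).1
    · intro g hg1 hgL
      apply weak_area hμ _ hg1 hgL
      intro ε hε
      obtain ⟨Λ, δ0, hΛ, hδ0, h⟩ := hol_tight R ε hε
      refine ⟨Λ, hΛ, ?_⟩
      filter_upwards [hlim.eventually (gt_mem_nhds hδ0)] with i hi
      exact h (δ i) (hδ i) hi.le

end Pool.Agent.Results.MP_fe58d8_pr.VariationAndArea
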